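import Pool.Agent.Helper80.FE.Graph
import Mathlib.NumberTheory.Bertrand

/-!
# A 2-degenerate graph `G` with `ex_3(n, G⁺) ≥ (n / 3072) ^ (21 / 10)` for all `n ≥ 3072`

There is even a 3-graph with this many edges whose shadow contains no copy of `G`.
-/

set_option autoImplicit false

namespace Pool.Agent.Results.MP_fe5fab_co.PowerGain

open Pool.Agent.Helper80.FE Finset

/-- a prime of the right size -/
theorem exists_prime_size (n : ℕ) (hn : 3072 ≤ n) :
    ∃ p : ℕ, p.Prime ∧ 3 * p ^ 10 ≤ n ∧ n ≤ 3072 * p ^ 10 := by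
  obtain ⟨q, hq⟩ : ∃ q, q = Nat.findGreatest (fun q => 3 * q ^ 10 ≤ n) n := ⟨_, rfl⟩
  have h2 : 2 ≤ q := by
    rw [hq]
    exact Nat.le_findGreatest (by omega) (by norm_num; omega)
  have h3 : 3 * q ^ 10 ≤ n := by
    have := Nat.findGreatest_spec (P := fun q => 3 * q ^ 10 ≤ n) (m := 2) (n := n) (by omega)
      (by norm_num; omega)
    rw [hq]
    exact this
  have h4 : n < 3 * (q + 1) ^ 10 := by
    by_contra hc
    push Not at hc
    have h5 : q + 1 ≤ n := by
      have : q + 1 ≤ (q + 1) ^ 10 := Nat.le_self_pow (by norm_num) _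
      omega
    have := Nat.le_findGreatest (P := fun q => 3 * q ^ 10 ≤ n) h5 hc
    omega
  obtain ⟨p, hp, hp1, hp2⟩ := Nat.exists_prime_lt_and_le_two_mul (q / 2) (by omega)
  refine ⟨p, hp, ?_, ?_⟩
  · have : p ^ 10 ≤ q ^ 10 := Nat.pow_le_pow_left (by omega) 10
    omega
  · have : (q + 1) ^ 10 ≤ (2 * p) ^ 10 := Nat.pow_le_pow_left (by omega) 10
    rw [mul_pow] at this
    omega

/-- the triple -/
def trip {p n : ℕ} [Fact p.Prime] (e : W (ZMod p) ↪ Fin n)
    (t : X (ZMod p) × B (ZMod p) × ZMod p) : Finset (Fin n) :=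
  {e (.inl t.1), e (.inr (.inl t.2.1)), e (.inr (.inr (third t.1 t.2.1 t.2.2)))}

theorem trip_card {p n : ℕ} [Fact p.Prime] (e : W (ZMod p) ↪ Fin n)
    (t : X (ZMod p) × B (ZMod p) × ZMod p) : (trip e t).card = 3 := by
  rw [Finset.card_eq_three]
  refine ⟨_, _, _, ?_, ?_, ?_, rfl⟩ <;> simp

theorem mem_trip {p n : ℕ} [Fact p.Prime] (e : W (ZMod p) ↪ Fin n)
    (t : X (ZMod p) × B (ZMod p) × ZMod p) (w : W (ZMod p)) :
    e w ∈ trip e t ↔ In t.1 t.2.1 t.2.2 w := by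
  simp only [trip, Finset.mem_insert, Finset.mem_singleton, In, e.injective.eq_iff]

theorem exists_of_mem_trip {p n : ℕ} [Fact p.Prime] (e : W (ZMod p) ↪ Fin n)
    (t : X (ZMod p) × B (ZMod p) × ZMod p) (i : Fin n) (hi : i ∈ trip e t) :
    ∃ w, e w = i := by
  simp only [trip, Finset.mem_insert, Finset.mem_singleton] at hi
  rcases hi with rfl | rfl | rfl <;> exact ⟨_, rfl⟩

theorem trip_injective {p n : ℕ} [Fact p.Prime] (e : W (ZMod p) ↪ Fin n) :
    Function.Injective (trip e) := by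
  rintro ⟨x, b, l⟩ ⟨x', b', l'⟩ h
  have h1 : e (.inl x) ∈ trip e (x', b', l') := by rw [← h]; simp [trip]
  have h2 : e (.inr (.inl b)) ∈ trip e (x', b', l') := by rw [← h]; simp [trip]
  have h3 : e (.inr (.inr (third x b l))) ∈ trip e (x', b', l') := by
    rw [← h]; simp [trip]
  simp [trip] at h1 h2 h3
  obtain rfl := h1
  obtain rfl := h2
  have : l = l' := congrArg Prod.fst h3
  rw [this]

theorem exists_adj (u : V3) : ∃ v, G3.Adj u v := by
  rcases u with u | q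
  · exact ⟨.inr (u, u, 0), Or.inl rfl⟩
  · exact ⟨.inl q.1, Or.inl rfl⟩

/-- There are a finite 2-degenerate graph `G` and for every `n ≥ 3072` a 3-graph `H` on `n`
vertices with at least `(n / 3072) ^ (21 / 10)` edges whose shadow (the graph of the pairs contained
in edges of `H`) contains no copy of `G`, and so no copy of the expansion of `G` in `H`. -/
theorem result : ∃ (V : Type) (_ : Finite V) (G : SimpleGraph V),
    (∀ S : Set V, S.Nonempty → ∃ v ∈ S, ({w : V | w ∈ S ∧ G.Adj v w} : Set V).ncard ≤ 2) ∧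
    ∀ n : ℕ, 3072 ≤ n → ∃ H : Finset (Finset (Fin n)),
      (∀ e ∈ H, e.card = 3) ∧
      ((n : ℝ) / 3072) ^ ((21 : ℝ) / 10) ≤ (H.card : ℝ) ∧
      (¬ ∃ f : V → Fin n, Function.Injective f ∧
        ∀ u v, G.Adj u v → ∃ e ∈ H, f u ∈ e ∧ f v ∈ e) ∧
      ¬ ∃ (f : V → Fin n) (g : V → V → Fin n), Function.Injective f ∧
        (∀ u v, G.Adj u v → g u v = g v u) ∧
        (∀ u v u' v', G.Adj u v → G.Adj u' v' → g u v = g u' v' →
          (u = u' ∧ v = v') ∨ (u = v' ∧ v = u')) ∧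
        (∀ u v, G.Adj u v → (∀ w, g u v ≠ f w) ∧
          ({f u, f v, g u v} : Finset (Fin n)) ∈ H) := by
  refine ⟨V3, inferInstance, G3, G3_twoDeg, fun n hn => ?_⟩
  obtain ⟨p, hp, hp1, hp2⟩ := exists_prime_size n hn
  haveI : Fact p.Prime := ⟨hp⟩
  have e0 : W (ZMod p) ≃ Fin (3 * p ^ 10) := Fintype.equivFinOfCardEq (card_W p)
  let e : W (ZMod p) ↪ Fin n := e0.toEmbedding.trans (Fin.castLEEmb hp1)
  suffices hs : ∃ H : Finset (Finset (Fin n)), (∀ e ∈ H, e.card = 3) ∧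
      ((n : ℝ) / 3072) ^ ((21 : ℝ) / 10) ≤ (H.card : ℝ) ∧
      (¬ ∃ f : V3 → Fin n, Function.Injective f ∧
        ∀ u v, G3.Adj u v → ∃ e ∈ H, f u ∈ e ∧ f v ∈ e) by
    obtain ⟨H, h1, h2, h3⟩ := hs
    refine ⟨H, h1, h2, h3, ?_⟩
    rintro ⟨f, g, hf, -, -, hg⟩
    exact h3 ⟨f, hf, fun u v huv => ⟨_, (hg u v huv).2, by simp, by simp⟩⟩
  refine ⟨Finset.univ.image (trip e), ?_, ?_, ?_⟩
  · intro s hs
    rw [Finset.mem_image] at hs
    obtain ⟨t, -, rfl⟩ := hs
    exact trip_card e t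
  · have h : Fintype.card (Sym2 (Fin 4)) = 10 := by rw [Sym2.card]; rfl
    have h1 : (Finset.univ.image (trip e)).card = p ^ 21 := by
      rw [Finset.card_image_of_injective _ (trip_injective e), Finset.card_univ]
      simp only [Fintype.card_prod, Fintype.card_fun, ZMod.card, h, Fintype.card_fin]
      ring
    rw [h1]
    have h2 : (n : ℝ) / 3072 ≤ (p : ℝ) ^ 10 := by
      have : (n : ℝ) ≤ 3072 * (p : ℝ) ^ 10 := by exact_mod_cast hp2
      linarith
    calc ((n : ℝ) / 3072) ^ ((21 : ℝ) / 10) ≤ ((p : ℝ) ^ 10) ^ ((21 : ℝ) / 10) :=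
          Real.rpow_le_rpow (by positivity) h2 (by norm_num)
      _ = ((p ^ 21 : ℕ) : ℝ) := by
          rw [← Real.rpow_natCast, ← Real.rpow_mul (by positivity)]
          have : ((10 : ℕ) : ℝ) * ((21 : ℝ) / 10) = ((21 : ℕ) : ℝ) := by norm_num
          rw [this, Real.rpow_natCast]
          push_cast
          rfl
  · rintro ⟨f, hf, hh⟩
    have h1 : ∀ u : V3, ∃ w, e w = f u := by
      intro u
      obtain ⟨v, huv⟩ := exists_adj u
      obtain ⟨s, hs, hu, -⟩ := hh u v huv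
      rw [Finset.mem_image] at hs
      obtain ⟨t, -, rfl⟩ := hs
      exact exists_of_mem_trip e t _ hu
    choose φ hφ using h1
    refine no_hom φ (fun a b hab => hf (by rw [← hφ a, ← hφ b, hab])) ?_
    intro u v huv
    refine ⟨fun he => G3.ne_of_adj huv (hf (by rw [← hφ u, ← hφ v, he])), ?_⟩
    obtain ⟨s, hs, hu, hv⟩ := hh u v huv
    rw [Finset.mem_image] at hs
    obtain ⟨t, -, rfl⟩ := hs
    rw [← hφ u, mem_trip] at hu
    rw [← hφ v, mem_trip] at hv
    exact ⟨t.1, t.2.1, t.2.2, hu, hv⟩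

end Pool.Agent.Results.MP_fe5fab_co.PowerGain
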